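import Pool.Agent.H164.GW.FourMain

/-!
# Four genuine `k`-th powers and `2 k - 3` `k`-th powers with generic coefficients

Let `k ≥ 4` and `s ≥ 2 k - 3`. For almost all vectors `(θ_1, ..., θ_s)` of positive real numbers every
large real number `t` is at distance smaller than `t ^ (- 1 / (40 k))` from a number
`y_1 ^ k + y_2 ^ k + y_3 ^ k + y_4 ^ k + θ_1 x_1 ^ k + ... + θ_s x_s ^ k` with positive integers
`y_j`, `x_i`; in particular every large integer is the integer part of such a number.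
-/

set_option autoImplicit false

open MeasureTheory

namespace Pool.Agent.Results.MP_ee77ae_nt.FourGenuinePowers

theorem result (k s : ℕ) (hk : 4 ≤ k) (hs : 2 * k ≤ s + 3) :
    ∀ᵐ θ : Fin s → ℝ, (∀ i, 0 < θ i) →
      (∃ t₀ : ℝ, ∀ t : ℝ, t₀ ≤ t → ∃ (y : Fin 4 → ℕ) (x : Fin s → ℕ), (∀ j, 0 < y j) ∧
        (∀ i, 0 < x i) ∧ |∑ j, (y j : ℝ) ^ k + ∑ i, θ i * (x i : ℝ) ^ k - t| <
          t ^ (-(1 / (40 * k : ℝ)))) ∧
      ∃ N₀ : ℕ, ∀ N : ℕ, N₀ ≤ N → ∃ (y : Fin 4 → ℕ) (x : Fin s → ℕ), (∀ j, 0 < y j) ∧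
        (∀ i, 0 < x i) ∧ ⌊∑ j, (y j : ℝ) ^ k + ∑ i, θ i * (x i : ℝ) ^ k⌋₊ = N := by
  refine (Pool.Agent.H164.GW.four_generic hk hs).mono fun θ hθ hpos => ?_
  have h : ∃ t₀ : ℝ, ∀ t : ℝ, t₀ ≤ t → ∃ (y : Fin 4 → ℕ) (x : Fin s → ℕ), (∀ j, 0 < y j) ∧
        (∀ i, 0 < x i) ∧ |∑ j, (y j : ℝ) ^ k + ∑ i, θ i * (x i : ℝ) ^ k - t| <
          t ^ (-(1 / (40 * k : ℝ))) := by
    obtain ⟨t₀, ht₀⟩ := hθ hpos
    refine ⟨t₀, fun t ht => ?_⟩
    obtain ⟨x, hx, hx'⟩ := ht₀ t ht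
    refine ⟨![x 0, x (Fin.succ 0), x (Fin.succ 0).succ, x (Fin.succ 0).succ.succ],
      fun i => x i.succ.succ.succ.succ, ?_, fun i => hx _, ?_⟩
    · intro j
      fin_cases j
      · exact hx _
      · exact hx _
      · exact hx _
      · exact hx _
    · have e : ∑ j : Fin 4, ((![x 0, x (Fin.succ 0), x (Fin.succ 0).succ, x (Fin.succ 0).succ.succ] :
          Fin 4 → ℕ) j : ℝ) ^ k = 1 * (x 0 : ℝ) ^ k + (1 * (x (Fin.succ 0) : ℝ) ^ k +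
          (1 * (x (Fin.succ 0).succ : ℝ) ^ k + 1 * (x (Fin.succ 0).succ.succ : ℝ) ^ k)) := by
        rw [Fin.sum_univ_four]
        simp only [one_mul, Matrix.cons_val_zero, Matrix.cons_val_one, Matrix.cons_val]
        ring
      rw [Fin.sum_univ_succ, Fin.sum_univ_succ, Fin.sum_univ_succ, Fin.sum_univ_succ] at hx'
      rw [e]
      have e2 : 1 * (x 0 : ℝ) ^ k + (1 * (x (Fin.succ 0) : ℝ) ^ k +
          (1 * (x (Fin.succ 0).succ : ℝ) ^ k + 1 * (x (Fin.succ 0).succ.succ : ℝ) ^ k)) +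
          ∑ i : Fin s, θ i * ((x i.succ.succ.succ.succ : ℕ) : ℝ) ^ k =
          1 * (x 0 : ℝ) ^ k + (1 * (x (Fin.succ 0) : ℝ) ^ k +
          (1 * (x (Fin.succ 0).succ : ℝ) ^ k + (1 * (x (Fin.succ 0).succ.succ : ℝ) ^ k +
          ∑ i : Fin s, θ i * ((x i.succ.succ.succ.succ : ℕ) : ℝ) ^ k))) := by ring
      rw [e2]
      exact hx'
  refine ⟨h, ?_⟩
  obtain ⟨t₀, ht₀⟩ := h
  have hk0 : (0 : ℝ) < k := by exact_mod_cast (by omega : 0 < k)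
  have hexp : (0 : ℝ) < 1 / (40 * k : ℝ) := by positivity
  have hlim := (tendsto_rpow_neg_atTop hexp).eventually (gt_mem_nhds (by norm_num : (0 : ℝ) < 1 / 2))
  obtain ⟨t₁, ht₁⟩ := Filter.eventually_atTop.1 hlim
  obtain ⟨N₀, hN₀⟩ := exists_nat_ge (max t₀ t₁)
  refine ⟨N₀, fun N hN => ?_⟩
  have hN' : (N₀ : ℝ) ≤ N := by exact_mod_cast hN
  have h1 : t₀ ≤ (N : ℝ) + 1 / 2 := by
    have := le_max_left t₀ t₁
    linarith
  have h2 : t₁ ≤ (N : ℝ) + 1 / 2 := by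
    have := le_max_right t₀ t₁
    linarith
  obtain ⟨y, x, hy, hx1, hx2⟩ := ht₀ _ h1
  refine ⟨y, x, hy, hx1, ?_⟩
  have h3 := abs_lt.1 (hx2.trans (ht₁ _ h2))
  rw [Nat.floor_eq_iff (by linarith [h3.1, Nat.cast_nonneg (α := ℝ) N])]
  constructor <;> linarith [h3.1, h3.2]

end Pool.Agent.Results.MP_ee77ae_nt.FourGenuinePowers
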